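import Pool.Agent.Helper69.ST.Goals

/-!
# ST: the conformal barycentre (packet HC)

The functional `Φ c = ∫ log |w - c|² dμ - μ₀ log (1 - |c|²)` is minimised on a closed disk; the first order condition is read off from
`log x ≤ x - 1`, with no differentiation under the integral sign.
-/

open MeasureTheory Set Complex Metric Filter
open scoped ContDiff Topology ENNReal

namespace Pool.Agent.Helper2.ST.HC

open Pool.Agent.Helper69.ST

lemma log_bd {a x : ℝ} (ha : 0 < a) (ha1 : a ≤ 1) (hx : a ≤ x) (hx2 : x ≤ 2) :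
    |Real.log (x ^ 2)| ≤ 2 * (Real.log 2 - Real.log a) := by
  have h1 : Real.log a ≤ Real.log x := Real.log_le_log ha hx
  have h2 : Real.log x ≤ Real.log 2 := Real.log_le_log (ha.trans_le hx) hx2
  have h3 : Real.log a ≤ 0 := Real.log_nonpos ha.le ha1
  have h4 : 0 ≤ Real.log 2 := Real.log_nonneg (by norm_num)
  rw [Real.log_pow, abs_le]
  push_cast
  constructor <;> linarith

lemma dist_lo {w c : ℂ} (hw : ‖w‖ = 1) : 1 - ‖c‖ ≤ ‖w - c‖ := by
  have := norm_sub_norm_le w c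
  rw [hw] at this
  exact this

lemma dist_hi {w c : ℂ} (hw : ‖w‖ = 1) (hc : ‖c‖ ≤ 1) : ‖w - c‖ ≤ 2 := by
  have := norm_sub_le w c
  rw [hw] at this
  linarith

/-- The logarithmic kernel. -/
noncomputable def L (W : ℝ → ℂ) (c : ℂ) (t : ℝ) : ℝ := Real.log (‖W t - c‖ ^ 2)

/-- The functional. -/
noncomputable def Phi (μ : Measure ℝ) (g : ℝ → ℝ) (W : ℝ → ℂ) (c : ℂ) : ℝ :=
  ∫ t, L W c t * g t ∂μ - (∫ t, g t ∂μ) * Real.log (1 - ‖c‖ ^ 2)

section

variable {μ : Measure ℝ} {g : ℝ → ℝ} {W : ℝ → ℂ}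

lemma L_meas (hW : Continuous W) (c : ℂ) : Measurable (L W c) := by
  unfold L
  exact Real.measurable_log.comp (((hW.sub continuous_const).norm.pow 2).measurable)

lemma L_bd (W1 : ∀ t, ‖W t‖ = 1) {r : ℝ} (hr : r < 1) (hr0 : 0 ≤ r) {c : ℂ} (hc : ‖c‖ ≤ r) (t : ℝ) :
    |L W c t| ≤ 2 * (Real.log 2 - Real.log (1 - r)) := by
  unfold L
  refine log_bd (by linarith) (by linarith) ?_ (dist_hi (W1 t) (by linarith))
  have := dist_lo (c := c) (W1 t)
  linarith

lemma L_int (hg : Integrable g μ) (hW : Continuous W) (W1 : ∀ t, ‖W t‖ = 1) {c : ℂ} (hc : ‖c‖ < 1) :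
    Integrable (fun t => L W c t * g t) μ := by
  refine hg.bdd_mul (c := 2 * (Real.log 2 - Real.log (1 - ‖c‖))) (L_meas hW c).aestronglyMeasurable ?_
  exact Eventually.of_forall fun t => by
    rw [Real.norm_eq_abs]
    exact L_bd W1 hc (norm_nonneg _) le_rfl t

lemma Phi_zero (W1 : ∀ t, ‖W t‖ = 1) : Phi μ g W 0 = 0 := by
  simp [Phi, L, W1]

lemma Phi_cont (hg : Integrable g μ) (g0 : ∀ t, 0 ≤ g t) (hW : Continuous W) (W1 : ∀ t, ‖W t‖ = 1) {r : ℝ} (hr : r < 1)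
    (hr0 : 0 ≤ r) : ContinuousOn (Phi μ g W) (closedBall 0 r) := by
  unfold Phi
  refine ContinuousOn.sub ?_ ?_
  · refine continuousOn_of_dominated (bound := fun t => 2 * (Real.log 2 - Real.log (1 - r)) * g t) ?_ ?_ ?_ ?_
    · intro c _
      exact (L_meas hW c).aestronglyMeasurable.mul hg.aestronglyMeasurable
    · intro c hc
      rw [mem_closedBall_zero_iff] at hc
      exact Eventually.of_forall fun t => by
        rw [Real.norm_eq_abs, abs_mul, abs_of_nonneg (g0 t)]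
        exact mul_le_mul_of_nonneg_right (L_bd W1 hr hr0 hc t) (g0 t)
    · exact hg.const_mul _
    · refine Eventually.of_forall fun t => ?_
      refine ContinuousOn.mul ?_ continuousOn_const
      unfold L
      refine ContinuousOn.log (by fun_prop) ?_
      intro c hc
      rw [mem_closedBall_zero_iff] at hc
      have := dist_lo (c := c) (W1 t)
      have h2 : 0 < ‖W t - c‖ := by linarith
      positivity
  · refine continuousOn_const.mul ?_
    refine ContinuousOn.log (by fun_prop) ?_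
    intro c hc
    rw [mem_closedBall_zero_iff] at hc
    have h0 := norm_nonneg c
    nlinarith

/-- Coercivity. -/
lemma coercive (hg : Integrable g μ) (g0 : ∀ t, 0 ≤ g t) (hW : Continuous W) (W1 : ∀ t, ‖W t‖ = 1)
    (hn : ∀ a : ℂ, ∀ᵐ t ∂μ, W t ≠ a) (hm : 0 < ∫ t, g t ∂μ) :
    ∃ r : ℝ, 0 < r ∧ r < 1 ∧ ∀ c : ℂ, ‖c‖ = r → 0 < Phi μ g W c := by
  by_contra hcon
  push Not at hcon
  have hr : ∀ n : ℕ, 0 < 1 - 1 / ((n : ℝ) + 2) ∧ 1 - 1 / ((n : ℝ) + 2) < 1 := by
    intro n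
    have h2 : (2 : ℝ) ≤ n + 2 := by linarith [n.cast_nonneg (α := ℝ)]
    have h3 : 1 / ((n : ℝ) + 2) ≤ 1 / 2 := one_div_le_one_div_of_le (by norm_num) h2
    have h4 : 0 < 1 / ((n : ℝ) + 2) := by positivity
    constructor <;> linarith
  choose c hc hP using fun n : ℕ => hcon (1 - 1 / ((n : ℝ) + 2)) (hr n).1 (hr n).2
  have hc1 : ∀ n, ‖c n‖ < 1 := fun n => by rw [hc n]; exact (hr n).2
  obtain ⟨a, -, φ, hφ, ha⟩ := (isCompact_closedBall (0 : ℂ) 1).tendsto_subseq (x := c)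
    (fun n => by rw [mem_closedBall_zero_iff]; exact (hc1 n).le)
  -- the logarithms
  set l : ℕ → ℝ := fun n => Real.log ((φ n : ℝ) + 2) with hl
  have hφt : Tendsto (fun n => ((φ n : ℕ) : ℝ) + 2) atTop atTop :=
    tendsto_atTop_add_const_right _ _ (tendsto_natCast_atTop_atTop.comp hφ.tendsto_atTop)
  have hlt : Tendsto l atTop atTop := Real.tendsto_log_atTop.comp hφt
  have hl2 : ∀ n, Real.log 2 ≤ l n := fun n => by
    refine Real.log_le_log (by norm_num) ?_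
    linarith [(φ n).cast_nonneg (α := ℝ)]
  have hlog2 : 0 < Real.log 2 := Real.log_pos (by norm_num)
  have hl0 : ∀ n, 0 < l n := fun n => hlog2.trans_le (hl2 n)
  have hlr : ∀ n, Real.log (1 - ‖c (φ n)‖) = - l n := by
    intro n
    rw [hc, hl]
    simp only
    rw [← Real.log_inv]
    congr 1
    rw [one_div]
    ring
  -- dominated convergence
  have hlim : Tendsto (fun n => ∫ t, (L W (c (φ n)) t / l n) * g t ∂μ) atTop (𝓝 (∫ _, (0 : ℝ) ∂μ)) := by
    refine tendsto_integral_of_dominated_convergence (fun t => 4 * g t) ?_ ?_ ?_ ?_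
    · intro n
      exact ((L_meas hW _).div_const _).aestronglyMeasurable.mul hg.aestronglyMeasurable
    · exact hg.const_mul _
    · intro n
      refine Eventually.of_forall fun t => ?_
      rw [Real.norm_eq_abs, abs_mul, abs_of_nonneg (g0 t)]
      refine mul_le_mul_of_nonneg_right ?_ (g0 t)
      rw [abs_div, abs_of_pos (hl0 n), div_le_iff₀ (hl0 n)]
      have h1 := L_bd W1 (hc1 (φ n)) (norm_nonneg _) le_rfl t
      rw [hlr] at h1
      linarith [hl2 n]
    · filter_upwards [hn a] with t ht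
      have h1 : Tendsto (fun n => L W (c (φ n)) t) atTop (𝓝 (L W a t)) := by
        unfold L
        have h2 : ‖W t - a‖ ^ 2 ≠ 0 := by
          have : W t - a ≠ 0 := sub_ne_zero.2 ht
          have : 0 < ‖W t - a‖ := norm_pos_iff.2 this
          positivity
        exact ((tendsto_const_nhds.sub ha).norm.pow 2).log h2
      have h3 := (h1.div_atTop hlt).mul_const (g t)
      simpa using h3
  rw [integral_zero] at hlim
  -- the contradiction
  have hlim2 : Tendsto (fun n => ∫ t, (L W (c (φ n)) t / l n) * g t ∂μ + (∫ t, g t ∂μ) * (1 - Real.log 2 / l n)) atTop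
      (𝓝 (0 + (∫ t, g t ∂μ) * (1 - 0))) :=
    hlim.add ((tendsto_const_nhds.sub (tendsto_const_nhds.div_atTop hlt)).const_mul _)
  have hev := hlim2.eventually (lt_mem_nhds (show (0 : ℝ) < 0 + (∫ t, g t ∂μ) * (1 - 0) by simpa using hm))
  obtain ⟨n, hn'⟩ := hev.exists
  have h5 := hP (φ n)
  unfold Phi at h5
  have h6 : ∫ t, (L W (c (φ n)) t / l n) * g t ∂μ = (∫ t, L W (c (φ n)) t * g t ∂μ) / l n := by
    rw [← integral_div]
    congr 1
    ext t
    ring
  rw [h6] at hn'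
  have h7 : Real.log (1 - ‖c (φ n)‖ ^ 2) ≤ - l n + Real.log 2 := by
    have e : 1 - ‖c (φ n)‖ ^ 2 = (1 - ‖c (φ n)‖) * (1 + ‖c (φ n)‖) := by ring
    rw [e, Real.log_mul (by linarith [hc1 (φ n)]) (by linarith [norm_nonneg (c (φ n))]), hlr]
    have : Real.log (1 + ‖c (φ n)‖) ≤ Real.log 2 :=
      Real.log_le_log (by linarith [norm_nonneg (c (φ n))]) (by linarith [hc1 (φ n)])
    linarith
  have h8 : 0 < (∫ t, L W (c (φ n)) t * g t ∂μ) + (∫ t, g t ∂μ) * (l n - Real.log 2) := by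
    have := mul_pos (hl0 n) hn'
    have e : l n * ((∫ t, L W (c (φ n)) t * g t ∂μ) / l n + (∫ t, g t ∂μ) * (1 - Real.log 2 / l n)) =
        (∫ t, L W (c (φ n)) t * g t ∂μ) + (∫ t, g t ∂μ) * (l n - Real.log 2) := by
      have := (hl0 n).ne'
      field_simp
    rwa [e] at this
  nlinarith [mul_le_mul_of_nonneg_left h7 hm.le]

/-- The kernel of the first order condition. -/
lemma K_int (hg : Integrable g μ) (hW : Continuous W) (W1 : ∀ t, ‖W t‖ = 1) {c : ℂ} (hc : ‖c‖ < 1) :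
    Integrable (fun t => (W t - c)⁻¹ * (g t : ℂ)) μ := by
  have hne : ∀ t, W t - c ≠ 0 := fun t h => by
    have := dist_lo (c := c) (W1 t)
    rw [h, norm_zero] at this
    linarith
  refine hg.ofReal.bdd_mul (c := (1 - ‖c‖)⁻¹) ?_ ?_
  · exact ((hW.sub continuous_const).inv₀ hne).aestronglyMeasurable
  · refine Eventually.of_forall fun t => ?_
    rw [norm_inv]
    exact inv_anti₀ (by linarith) (dist_lo (W1 t))

lemma Q_int (hg : Integrable g μ) (hW : Continuous W) (W1 : ∀ t, ‖W t‖ = 1) {c : ℂ} (hc : ‖c‖ < 1) :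
    Integrable (fun t => (‖W t - c‖ ^ 2)⁻¹ * g t) μ := by
  have hpos : ∀ t, 0 < ‖W t - c‖ := fun t => by
    have := dist_lo (c := c) (W1 t)
    linarith
  refine hg.bdd_mul (c := ((1 - ‖c‖) ^ 2)⁻¹) ?_ ?_
  · exact (((hW.sub continuous_const).norm.pow 2).inv₀ (fun t => (pow_pos (hpos t) 2).ne')).aestronglyMeasurable
  · refine Eventually.of_forall fun t => ?_
    rw [Real.norm_eq_abs, abs_of_pos (by have := hpos t; positivity)]
    refine inv_anti₀ (pow_pos (by linarith) 2) ?_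
    exact pow_le_pow_left₀ (by linarith) (dist_lo (W1 t)) 2

/-- The difference of the functional at two points. -/
lemma diff_le (hg : Integrable g μ) (g0 : ∀ t, 0 ≤ g t) (hW : Continuous W) (W1 : ∀ t, ‖W t‖ = 1)
    {c v : ℂ} (hc : ‖c‖ < 1) {s : ℝ} (hcv : ‖c + s * v‖ < 1) :
    Phi μ g W (c + s * v) - Phi μ g W c ≤
      s * (-2 * (v * ∫ t, (W t - c)⁻¹ * (g t : ℂ) ∂μ).re) + s ^ 2 * (‖v‖ ^ 2 * ∫ t, (‖W t - c‖ ^ 2)⁻¹ * g t ∂μ) +
      (∫ t, g t ∂μ) * ((2 * s * (v * starRingEnd ℂ c).re + s ^ 2 * ‖v‖ ^ 2) / (1 - ‖c + s * v‖ ^ 2)) := by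
  have hm : 0 ≤ ∫ t, g t ∂μ := integral_nonneg g0
  have hpos : ∀ (c : ℂ), ‖c‖ < 1 → ∀ t, 0 < ‖W t - c‖ := fun c hc t => by
    have := dist_lo (c := c) (W1 t)
    linarith
  have h1 : ∫ t, L W (c + s * v) t * g t ∂μ - ∫ t, L W c t * g t ∂μ ≤
      s * (-2 * (v * ∫ t, (W t - c)⁻¹ * (g t : ℂ) ∂μ).re) + s ^ 2 * (‖v‖ ^ 2 * ∫ t, (‖W t - c‖ ^ 2)⁻¹ * g t ∂μ) := by
    have hK := K_int hg hW W1 hc
    have hKv : Integrable (fun t => (v * ((W t - c)⁻¹ * (g t : ℂ))).re) μ := (hK.const_mul v).re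
    have e1 : (v * ∫ t, (W t - c)⁻¹ * (g t : ℂ) ∂μ).re = ∫ t, (v * ((W t - c)⁻¹ * (g t : ℂ))).re ∂μ := by
      rw [← integral_const_mul]
      exact (integral_re (hK.const_mul v)).symm
    rw [e1, ← integral_const_mul, ← integral_const_mul, ← integral_const_mul, ← integral_const_mul,
      ← integral_add ((hKv.const_mul _).const_mul _) (((Q_int hg hW W1 hc).const_mul _).const_mul _),
      ← integral_sub (L_int hg hW W1 hcv) (L_int hg hW W1 hc)]
    refine integral_mono ((L_int hg hW W1 hcv).sub (L_int hg hW W1 hc))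
      (((hKv.const_mul _).const_mul _).add (((Q_int hg hW W1 hc).const_mul _).const_mul _)) ?_
    intro t
    simp only
    have hp := hpos c hc t
    have hp' := hpos _ hcv t
    have e2 : (v * ((W t - c)⁻¹ * (g t : ℂ))).re = (v * (W t - c)⁻¹).re * g t := by
      rw [← mul_assoc, Complex.re_mul_ofReal]
    rw [e2]
    have h3 : L W (c + s * v) t - L W c t ≤ ‖W t - (c + s * v)‖ ^ 2 / ‖W t - c‖ ^ 2 - 1 := by
      unfold L
      rw [← Real.log_div (by positivity) (by positivity)]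
      exact Real.log_le_sub_one_of_pos (by positivity)
    have h4 : ‖W t - (c + s * v)‖ ^ 2 / ‖W t - c‖ ^ 2 - 1 =
        s * (-2 * (v * (W t - c)⁻¹).re) + s ^ 2 * (‖v‖ ^ 2 * (‖W t - c‖ ^ 2)⁻¹) := by
      have hz : W t - c ≠ 0 := norm_pos_iff.1 hp
      have e3 : W t - (c + s * v) = (W t - c) * (1 - s * (v * (W t - c)⁻¹)) := by
        field_simp
        ring
      have e4 : ‖1 - s * (v * (W t - c)⁻¹)‖ ^ 2 = 1 - 2 * s * (v * (W t - c)⁻¹).re + s ^ 2 * ‖v * (W t - c)⁻¹‖ ^ 2 := by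
        generalize v * (W t - c)⁻¹ = z
        rw [← Complex.normSq_eq_norm_sq, ← Complex.normSq_eq_norm_sq, Complex.normSq_apply, Complex.normSq_apply]
        simp only [Complex.sub_re, Complex.sub_im, Complex.one_re, Complex.one_im, Complex.re_ofReal_mul,
          Complex.im_ofReal_mul]
        ring
      rw [e3, norm_mul, mul_pow, e4, norm_mul, norm_inv]
      field_simp
      ring
    calc L W (c + s * v) t * g t - L W c t * g t = (L W (c + s * v) t - L W c t) * g t := by ring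
      _ ≤ (s * (-2 * (v * (W t - c)⁻¹).re) + s ^ 2 * (‖v‖ ^ 2 * (‖W t - c‖ ^ 2)⁻¹)) * g t :=
          mul_le_mul_of_nonneg_right (h3.trans_eq h4) (g0 t)
      _ = _ := by ring
  have hb : ∀ c : ℂ, ‖c‖ < 1 → 0 < 1 - ‖c‖ ^ 2 := fun c hc => by
    have := norm_nonneg c
    nlinarith
  have h2 : Real.log (1 - ‖c‖ ^ 2) - Real.log (1 - ‖c + s * v‖ ^ 2) ≤
      (2 * s * (v * starRingEnd ℂ c).re + s ^ 2 * ‖v‖ ^ 2) / (1 - ‖c + s * v‖ ^ 2) := by
    have hb1 := hb c hc
    have hb2 := hb _ hcv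
    rw [← Real.log_div hb1.ne' hb2.ne']
    refine (Real.log_le_sub_one_of_pos (div_pos hb1 hb2)).trans_eq ?_
    have e5 : ‖c + s * v‖ ^ 2 = ‖c‖ ^ 2 + 2 * s * (v * starRingEnd ℂ c).re + s ^ 2 * ‖v‖ ^ 2 := by
      rw [← Complex.normSq_eq_norm_sq, ← Complex.normSq_eq_norm_sq, ← Complex.normSq_eq_norm_sq,
        Complex.normSq_apply, Complex.normSq_apply, Complex.normSq_apply]
      simp only [Complex.add_re, Complex.add_im, Complex.mul_re, Complex.mul_im, Complex.ofReal_re,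
        Complex.ofReal_im, Complex.conj_re, Complex.conj_im]
      ring
    rw [div_sub_one hb2.ne']
    congr 1
    rw [e5]
    ring
  unfold Phi
  have h5 := mul_le_mul_of_nonneg_left h2 hm
  linarith

/-- The first order condition. -/
lemma crit (hg : Integrable g μ) (g0 : ∀ t, 0 ≤ g t) (hW : Continuous W) (W1 : ∀ t, ‖W t‖ = 1)
    {c : ℂ} {r : ℝ} (hr : r < 1) (hc : ‖c‖ < r) (hmin : ∀ d : ℂ, ‖d‖ ≤ r → Phi μ g W c ≤ Phi μ g W d) :
    ∫ t, (W t - c)⁻¹ * (g t : ℂ) ∂μ = (∫ t, g t ∂μ : ℝ) * starRingEnd ℂ c / (1 - ‖c‖ ^ 2 : ℝ) := by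
  have hc1 : ‖c‖ < 1 := hc.trans hr
  have hb : 0 < 1 - ‖c‖ ^ 2 := by
    have := norm_nonneg c
    nlinarith
  set K : ℂ := ∫ t, (W t - c)⁻¹ * (g t : ℂ) ∂μ with hK
  set m : ℝ := ∫ t, g t ∂μ with hm
  set Z : ℂ := K - m * starRingEnd ℂ c / (1 - ‖c‖ ^ 2 : ℝ) with hZ
  -- the inequality
  have key : ∀ v : ℂ, (v * Z).re ≤ 0 := by
    intro v
    set Q : ℝ := ∫ t, (‖W t - c‖ ^ 2)⁻¹ * g t ∂μ
    have hcont : Tendsto (fun s : ℝ => -2 * (v * K).re + s * (‖v‖ ^ 2 * Q) +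
        m * ((2 * (v * starRingEnd ℂ c).re + s * ‖v‖ ^ 2) / (1 - ‖c + s * v‖ ^ 2))) (𝓝[>] 0)
        (𝓝 (-2 * (v * K).re + 0 * (‖v‖ ^ 2 * Q) +
        m * ((2 * (v * starRingEnd ℂ c).re + 0 * ‖v‖ ^ 2) / (1 - ‖c + (0 : ℝ) * v‖ ^ 2)))) := by
      refine Tendsto.mono_left ?_ nhdsWithin_le_nhds
      have hid : Tendsto (fun s : ℝ => s) (𝓝 0) (𝓝 0) := tendsto_id
      refine (tendsto_const_nhds.add (hid.mul_const _)).add (Tendsto.const_mul m ?_)
      refine (tendsto_const_nhds.add (hid.mul_const _)).div (tendsto_const_nhds.sub ?_) ?_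
      · have : Continuous (fun s : ℝ => ‖c + s * v‖ ^ 2) := by fun_prop
        exact this.tendsto 0
      · simpa using hb.ne'
    have hev : ∀ᶠ s : ℝ in 𝓝[>] 0, 0 ≤ -2 * (v * K).re + s * (‖v‖ ^ 2 * Q) +
        m * ((2 * (v * starRingEnd ℂ c).re + s * ‖v‖ ^ 2) / (1 - ‖c + s * v‖ ^ 2)) := by
      have h1 : ∀ᶠ s : ℝ in 𝓝[>] 0, ‖c + s * v‖ < r := by
        refine nhdsWithin_le_nhds ?_
        have : Continuous (fun s : ℝ => ‖c + s * v‖) := by fun_prop
        exact this.tendsto 0 |>.eventually (gt_mem_nhds (by simpa using hc))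
      filter_upwards [h1, self_mem_nhdsWithin] with s hs hs0
      rw [mem_Ioi] at hs0
      have h2 := diff_le hg g0 hW W1 hc1 (hs.trans hr) (v := v)
      have h3 := hmin _ hs.le
      rw [← hK, ← hm] at h2
      have h4 : 0 ≤ s * (-2 * (v * K).re + s * (‖v‖ ^ 2 * Q) +
        m * ((2 * (v * starRingEnd ℂ c).re + s * ‖v‖ ^ 2) / (1 - ‖c + s * v‖ ^ 2))) := by
        refine (sub_nonneg.2 h3).trans (h2.trans_eq ?_)
        ring
      exact nonneg_of_mul_nonneg_right h4 hs0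
    have h5 := ge_of_tendsto hcont hev
    simp only [zero_mul, add_zero, ofReal_zero] at h5
    have e : (v * Z).re = (v * K).re - m * (v * starRingEnd ℂ c).re / (1 - ‖c‖ ^ 2) := by
      have e1 : v * Z = v * K - ((m / (1 - ‖c‖ ^ 2) : ℝ) : ℂ) * (v * starRingEnd ℂ c) := by
        rw [hZ]
        push_cast
        ring
      rw [e1, Complex.sub_re, Complex.re_ofReal_mul]
      ring
    rw [e]
    have e3 : m * (2 * (v * starRingEnd ℂ c).re / (1 - ‖c‖ ^ 2)) = 2 * (m * (v * starRingEnd ℂ c).re / (1 - ‖c‖ ^ 2)) := by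
      ring
    linarith
  have h6 := key (starRingEnd ℂ Z)
  rw [mul_comm, Complex.mul_conj, Complex.ofReal_re] at h6
  have h7 : Z = 0 := Complex.normSq_eq_zero.1 (le_antisymm h6 (Complex.normSq_nonneg _))
  rw [hZ] at h7
  exact sub_eq_zero.1 h7

lemma mob_conj {c w : ℂ} (hw : ‖w‖ = 1) (hc : ‖c‖ < 1) :
    starRingEnd ℂ (mob c w) = (1 - ‖c‖ ^ 2 : ℝ) * (w - c)⁻¹ - starRingEnd ℂ c := by
  have hz : w - c ≠ 0 := fun h => by
    have := dist_lo (c := c) hw
    rw [h, norm_zero] at this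
    linarith
  have hw0 : w ≠ 0 := fun h => by rw [h, norm_zero] at hw; exact zero_ne_one hw
  have hww : w * starRingEnd ℂ w = 1 := by
    rw [Complex.mul_conj, Complex.normSq_eq_norm_sq, hw]
    norm_num
  have hcc : ((‖c‖ ^ 2 : ℝ) : ℂ) = c * starRingEnd ℂ c := by
    rw [Complex.mul_conj, Complex.normSq_eq_norm_sq]
  have hwi : starRingEnd ℂ w = w⁻¹ := eq_inv_of_mul_eq_one_right hww
  unfold mob
  rw [map_div₀, map_sub, map_sub, map_mul, map_one, Complex.conj_conj, hwi]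
  have hd : 1 - c * w⁻¹ ≠ 0 := by
    have e : 1 - c * w⁻¹ = (w - c) * w⁻¹ := by
      field_simp
    rw [e]
    exact mul_ne_zero hz (inv_ne_zero hw0)
  push_cast at hcc ⊢
  rw [hcc, div_eq_iff hd]
  field_simp
  ring

theorem core (hg : Integrable g μ) (g0 : ∀ t, 0 ≤ g t) (hW : Continuous W) (W1 : ∀ t, ‖W t‖ = 1)
    (hn : ∀ a : ℂ, ∀ᵐ t ∂μ, W t ≠ a) (hm : 0 < ∫ t, g t ∂μ) :
    ∃ c : ℂ, ‖c‖ < 1 ∧ ∫ t, mob c (W t) * (g t : ℂ) ∂μ = 0 := by
  obtain ⟨r, hr0, hr1, hco⟩ := coercive hg g0 hW W1 hn hm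
  obtain ⟨c, hc, hmin⟩ := (isCompact_closedBall (0 : ℂ) r).exists_isMinOn ⟨0, by simp [hr0.le]⟩
    (Phi_cont hg g0 hW W1 hr1 hr0.le)
  rw [mem_closedBall_zero_iff] at hc
  have hmin' : ∀ d : ℂ, ‖d‖ ≤ r → Phi μ g W c ≤ Phi μ g W d := fun d hd =>
    hmin (mem_closedBall_zero_iff.2 hd)
  have hcr : ‖c‖ < r := by
    refine lt_of_le_of_ne hc fun h => ?_
    have h1 := hco c h
    have h2 := hmin' 0 (by simp [hr0.le])
    rw [Phi_zero W1] at h2
    linarith
  have hc1 := hcr.trans hr1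
  refine ⟨c, hc1, ?_⟩
  have hK := crit hg g0 hW W1 hr1 hcr hmin'
  have hb : ((1 - ‖c‖ ^ 2 : ℝ) : ℂ) ≠ 0 := by
    have : 0 < 1 - ‖c‖ ^ 2 := by
      have := norm_nonneg c
      nlinarith
    exact_mod_cast this.ne'
  have h1 : ∫ t, starRingEnd ℂ (mob c (W t)) * (g t : ℂ) ∂μ = 0 := by
    have e : ∀ t, starRingEnd ℂ (mob c (W t)) * (g t : ℂ) =
        ((1 - ‖c‖ ^ 2 : ℝ) : ℂ) * ((W t - c)⁻¹ * (g t : ℂ)) - starRingEnd ℂ c * (g t : ℂ) := by
      intro t
      rw [mob_conj (W1 t) hc1]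
      ring
    have hgc : Integrable (fun t => (g t : ℂ)) μ := hg.ofReal
    have hgi : ∫ t, (g t : ℂ) ∂μ = ((∫ t, g t ∂μ : ℝ) : ℂ) := integral_ofReal
    simp_rw [e]
    rw [integral_sub ((K_int hg hW W1 hc1).const_mul _) (hgc.const_mul _), integral_const_mul,
      integral_const_mul, hK, hgi]
    field_simp
    ring
  have h2 : ∫ t, mob c (W t) * (g t : ℂ) ∂μ = starRingEnd ℂ (∫ t, starRingEnd ℂ (mob c (W t)) * (g t : ℂ) ∂μ) := by
    rw [← integral_conj]
    congr 1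
    ext t
    rw [map_mul, Complex.conj_conj, Complex.conj_ofReal]
  rw [h2, h1, map_zero]

end

theorem t : Helper69.ST.S_HC := by
  intro H hH hint hpos
  have hle : -Real.pi ≤ Real.pi := by linarith [Real.pi_pos]
  rw [intervalIntegral.integral_of_le hle] at hpos
  rw [intervalIntegrable_iff_integrableOn_Ioc_of_le hle] at hint
  have hn : ∀ a : ℂ, ∀ᵐ t : ℝ ∂(volume.restrict (Ioc (-Real.pi) Real.pi)), exp (t * I) ≠ a := by
    intro a
    refine ae_restrict_of_ae ?_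
    by_cases ha : ∃ t₀ : ℝ, exp (t₀ * I) = a
    · obtain ⟨t₀, rfl⟩ := ha
      have hcount : (range fun n : ℤ => t₀ + n * (2 * Real.pi)).Countable := countable_range _
      filter_upwards [hcount.ae_notMem volume] with t ht h
      rw [Complex.exp_eq_exp_iff_exists_int] at h
      obtain ⟨n, hn⟩ := h
      refine ht ⟨n, ?_⟩
      have e : ((t : ℝ) : ℂ) = ((t₀ + n * (2 * Real.pi) : ℝ) : ℂ) := by
        have hI : (I : ℂ) ≠ 0 := Complex.I_ne_zero
        apply mul_right_cancel₀ hI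
        rw [hn]
        push_cast
        ring
      exact (Complex.ofReal_injective e).symm
    · push Not at ha
      exact Eventually.of_forall ha
  obtain ⟨c, hc, h⟩ := core (W := fun t : ℝ => exp (t * I)) hint (fun t => by positivity) (by fun_prop)
    (fun t => Complex.norm_exp_ofReal_mul_I t) hn hpos
  refine ⟨c, hc, ?_⟩
  rw [intervalIntegral.integral_of_le hle]
  exact h

end Pool.Agent.Helper2.ST.HC
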