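import Pool.Agent.Helper69.ST.GoalsR

/-!
# ST: the extremal function of Riemann's theorem (packet XT)
-/

open MeasureTheory Set Complex Metric Filter
open scoped ContDiff Topology ENNReal

namespace Pool.Agent.Helper2.ST.XT

open Pool.Agent.Helper69.ST

theorem t (hMT : Helper69.ST.S_MT) (hHW : Helper69.ST.S_HW) : Helper69.ST.S_XT := by
  intro U z₀ hU hb hc hz
  have hnhds : U ∈ 𝓝 z₀ := hU.mem_nhds hz
  -- the set of derivatives
  set D : Set ℝ := {r | ∃ h : ℂ → ℂ, Fam U z₀ h ∧ ‖deriv h z₀‖ = r} with hD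
  -- a member with nonzero derivative
  obtain ⟨R, hR0, hR⟩ : ∃ R : ℝ, 0 < R ∧ ∀ z ∈ U, ‖z - z₀‖ < R := by
    obtain ⟨R, hR⟩ := hb.subset_ball z₀
    refine ⟨max R 1, by positivity, fun z hz' => ?_⟩
    have := hR hz'
    rw [mem_ball, dist_eq_norm] at this
    exact this.trans_le (le_max_left _ _)
  have hmem : R⁻¹ ∈ D := by
    refine ⟨fun z => (R : ℂ)⁻¹ * (z - z₀), ⟨by fun_prop, ?_, ?_, by simp⟩, ?_⟩
    · intro x _ y _ hxy
      have hR' : (R : ℂ)⁻¹ ≠ 0 := inv_ne_zero (by exact_mod_cast hR0.ne')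
      have := mul_left_cancel₀ hR' hxy
      exact sub_left_injective this
    · intro z hz'
      rw [mem_ball_zero_iff, norm_mul, norm_inv, Complex.norm_real, Real.norm_eq_abs, abs_of_pos hR0, inv_mul_lt_iff₀ hR0,
        mul_one]
      exact hR z hz'
    · have h1 : HasDerivAt (fun z => (R : ℂ)⁻¹ * (z - z₀)) ((R : ℂ)⁻¹ * 1) z₀ :=
        ((hasDerivAt_id z₀).sub_const z₀).const_mul _
      rw [h1.deriv, mul_one, norm_inv, Complex.norm_real, Real.norm_eq_abs, abs_of_pos hR0]
  -- the bound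
  have hbdd : BddAbove D := by
    obtain ⟨δ, hδ, hball⟩ := Metric.nhds_basis_closedBall.mem_iff.1 hnhds
    refine ⟨1 / δ, ?_⟩
    rintro r ⟨h, hF, rfl⟩
    refine Complex.norm_deriv_le_of_forall_mem_sphere_norm_le hδ ?_ ?_
    · exact (hF.diff.mono hball).diffContOnCl_ball subset_rfl
    · intro z hz'
      have := hF.maps (hball (sphere_subset_closedBall hz'))
      rw [mem_ball_zero_iff] at this
      exact this.le
  obtain ⟨u, -, hu, huD⟩ := exists_seq_tendsto_sSup ⟨_, hmem⟩ hbdd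
  choose h hF hd using huD
  obtain ⟨φ, g, hφ, hg, hlim⟩ := hMT U h hU (fun n => (hF n).diff) (fun n z hz' => by
    have := (hF n).maps hz'
    rw [mem_ball_zero_iff] at this
    exact this.le)
  have hdl : Tendsto (fun n => deriv (h (φ n)) z₀) atTop (𝓝 (deriv g z₀)) :=
    (hlim.deriv (Eventually.of_forall fun n => (hF (φ n)).diff) hU).tendsto_at hz
  have hdn : ‖deriv g z₀‖ = sSup D := by
    refine tendsto_nhds_unique hdl.norm ?_
    simp_rw [hd]
    exact hu.comp hφ.tendsto_atTop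
  have hpos : 0 < sSup D := (inv_pos.2 hR0).trans_le (le_csSup hbdd hmem)
  have hd0 : deriv g z₀ ≠ 0 := by
    rw [← norm_pos_iff, hdn]
    exact hpos
  have hnc : ¬ ∃ c : ℂ, ∀ z ∈ U, g z = c := by
    rintro ⟨c, hcst⟩
    refine hd0 ?_
    have : g =ᶠ[𝓝 z₀] fun _ => c := by
      filter_upwards [hnhds] with z hz' using hcst z hz'
    rw [this.deriv_eq, deriv_const]
  have hinj : InjOn g U := by
    rcases hHW U (fun n => h (φ n)) g hU hc (fun n => (hF (φ n)).diff) (fun n => (hF (φ n)).inj) hlim with h1 | h1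
    · exact absurd h1 hnc
    · exact h1
  have hopen : IsOpen (g '' U) := by
    rcases (hg.analyticOnNhd hU).is_constant_or_isOpen hc.isPreconnected with h1 | h1
    · exact absurd h1 hnc
    · exact h1 U subset_rfl hU
  have hmaps : MapsTo g U (ball 0 1) := by
    have h1 : g '' U ⊆ closedBall 0 1 := by
      rintro _ ⟨z, hz', rfl⟩
      rw [mem_closedBall_zero_iff]
      refine le_of_tendsto (hlim.tendsto_at hz').norm (Eventually.of_forall fun n => ?_)
      have := (hF (φ n)).maps hz'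
      rw [mem_ball_zero_iff] at this
      exact this.le
    have h2 : g '' U ⊆ ball 0 1 := by
      have := interior_maximal h1 hopen
      rwa [interior_closedBall _ one_ne_zero] at this
    exact fun z hz' => h2 (mem_image_of_mem g hz')
  have hzero : g z₀ = 0 := by
    refine tendsto_nhds_unique (hlim.tendsto_at hz) ?_
    simp_rw [(hF _).zero]
    exact tendsto_const_nhds
  refine ⟨g, ⟨hg, hinj, hmaps, hzero⟩, hd0, fun f hf => ?_⟩
  rw [hdn]
  exact le_csSup hbdd ⟨f, hf, rfl⟩

end Pool.Agent.Helper2.ST.XT
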